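import Pool.Agent.Helper25.FN.Spec

/-!
# FN, part FBS: solutions of `P(∂) F = 0` are transforms of functionals which annihilate `P · H`
-/

set_option autoImplicit false

namespace Pool.Agent.Helper7.FN.FBS

open Pool.Agent.Helper25.FN Filter Topology
open Pool.Agent.Helper25.FB.Inj (Entire IsAF FBorel ExpType InPerp star InPStarExp)

theorem uniq1 (b : ℕ → ℂ) (h : ∀ s : ℂ, HasSum (fun k => s ^ k * b k) 0) : ∀ k, b k = 0 := by
  let p : FormalMultilinearSeries ℂ ℂ ℂ := fun k => ContinuousMultilinearMap.mkPiRing ℂ (Fin k) (b k)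
  have hc : ∀ k, p.coeff k = b k := by
    intro k
    simp [p, FormalMultilinearSeries.coeff]
  have h1 : HasFPowerSeriesAt (0 : ℂ → ℂ) p 0 := by
    rw [hasFPowerSeriesAt_iff]
    refine Eventually.of_forall fun s => ?_
    simp only [hc, smul_eq_mul, Pi.zero_apply]
    exact h s
  have h2 := h1.eq_zero
  intro k
  rw [← hc k, h2]
  simp [FormalMultilinearSeries.coeff]

theorem uniq : ∀ (n : ℕ) (c : (Fin n → ℕ) → ℂ),
    (∀ z : Fin n → ℂ, HasSum (fun α => c α * ∏ i, z i ^ α i) 0) → ∀ α, c α = 0 := by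
  intro n
  induction n with
  | zero =>
    intro c h α
    have h2 : HasSum (fun α : Fin 0 → ℕ => c α * ∏ i, (0 : Fin 0 → ℂ) i ^ α i)
        (c α * ∏ i, (0 : Fin 0 → ℂ) i ^ α i) :=
      hasSum_single α (fun β hβ => absurd (Subsingleton.elim β α) hβ)
    have h1 := (h 0).unique h2
    simpa using h1.symm
  | succ n ih =>
    intro c h
    have key : ∀ (z : Fin n → ℂ) (s : ℂ), HasSum (fun p : ℕ × (Fin n → ℕ) =>
        s ^ p.1 * (c (Fin.cons p.1 p.2) * ∏ i, z i ^ p.2 i)) 0 := by
      intro z s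
      have h1 := h (Fin.cons s z)
      rw [← (Fin.consEquiv (fun _ : Fin (n + 1) => ℕ)).hasSum_iff] at h1
      convert h1 using 2 with p
      have hp : (Fin.consEquiv (fun _ : Fin (n + 1) => ℕ)) p = Fin.cons p.1 p.2 := rfl
      simp only [Function.comp_apply, hp, Fin.prod_univ_succ, Fin.cons_zero,
        Fin.cons_succ]
      ring
    have hb : ∀ (z : Fin n → ℂ) (k : ℕ),
        HasSum (fun α : Fin n → ℕ => c (Fin.cons k α) * ∏ i, z i ^ α i) 0 := by
      intro z
      have hs1 : ∀ k, Summable (fun α : Fin n → ℕ => c (Fin.cons k α) * ∏ i, z i ^ α i) := by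
        intro k
        have h1 := (key z 1).summable.prod_factor k
        simpa using h1
      have h2 : ∀ s : ℂ, HasSum (fun k => s ^ k *
          ∑' α : Fin n → ℕ, c (Fin.cons k α) * ∏ i, z i ^ α i) 0 := by
        intro s
        exact (key z s).prod_fiberwise fun k => ((hs1 k).hasSum.mul_left (s ^ k))
      have h3 := uniq1 _ h2
      intro k
      have := (hs1 k).hasSum
      rwa [h3 k] at this
    intro α
    have h4 := ih (fun α' => c (Fin.cons (α 0) α')) (fun z => hb z (α 0)) (Fin.tail α)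
    simpa using h4

variable {n : ℕ}

/-- `f` is the sum of the power series with the coefficients `c` -/
def Ser (c : (Fin n → ℕ) → ℂ) (f : V n → ℂ) : Prop :=
  ∀ z : V n, HasSum (fun α => c α * ∏ i, z i ^ α i) (f z)

theorem Ser.unique {c d : (Fin n → ℕ) → ℂ} {f : V n → ℂ} (hc : Ser c f) (hd : Ser d f) :
    ∀ α, c α = d α := by
  intro α
  have h := uniq n (fun α => c α - d α) (fun z => by
    have h1 := (hc z).sub (hd z)
    rw [sub_self] at h1
    have h2 : (fun α : Fin n → ℕ => c α * ∏ i, z i ^ α i - d α * ∏ i, z i ^ α i) =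
        fun α => (c α - d α) * ∏ i, z i ^ α i := by
      funext α
      ring
    rw [h2] at h1
    exact h1) α
  exact sub_eq_zero.1 h

/-- Taylor coefficients -/
noncomputable def tc (f : V n → ℂ) : (Fin n → ℕ) → ℂ := by
  classical
  exact if h : Differentiable ℂ f then
    (Pool.Agent.Helper25.FB.Inj.taylor f h).choose else 0

theorem tc_bound {f : V n → ℂ} (h : Entire f) : ∀ ρ M : ℝ, 0 < ρ →
    (∀ z : V n, ‖z‖ ≤ ρ → ‖f z‖ ≤ M) → ∀ α, ‖tc f α‖ * ρ ^ (∑ i, α i) ≤ M := by
  have h' : Differentiable ℂ f := h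
  unfold tc
  rw [dif_pos h']
  exact (Pool.Agent.Helper25.FB.Inj.taylor f h').choose_spec.1

theorem tc_ser {f : V n → ℂ} (h : Entire f) : Ser (tc f) f := by
  have h' : Differentiable ℂ f := h
  unfold tc
  rw [dif_pos h']
  exact (Pool.Agent.Helper25.FB.Inj.taylor f h').choose_spec.2

theorem tc_eq {f : V n → ℂ} (h : Entire f) {c : (Fin n → ℕ) → ℂ} (hc : Ser c f) :
    ∀ α, tc f α = c α := (tc_ser h).unique hc

/-- the functional -/
noncomputable def T (a : (Fin n → ℕ) → ℂ) (f : V n → ℂ) : ℂ := ∑' α, a α * tc f α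

theorem geo : Summable (fun α : Fin n → ℕ => (1 / 2 : ℝ) ^ (∑ i, α i)) :=
  Pool.Agent.Helper25.FB.Inj.geom_summable n (1 / 2) (by norm_num) (by norm_num)

theorem term_bound {a : (Fin n → ℕ) → ℂ} {C R : ℝ} (hR : 0 < R)
    (ha : ∀ α, ‖a α‖ ≤ C * R ^ (∑ i, α i)) {f : V n → ℂ} (hf : Entire f) {M : ℝ}
    (hM : ∀ z : V n, ‖z‖ ≤ 2 * R → ‖f z‖ ≤ M) (hC : 0 ≤ C) (α : Fin n → ℕ) :
    ‖a α * tc f α‖ ≤ C * M * (1 / 2) ^ (∑ i, α i) := by
  have h1 := tc_bound hf (2 * R) M (by positivity) hM α
  have hp : 0 < (2 * R) ^ (∑ i, α i) := by positivity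
  have hM0 : 0 ≤ M := le_trans (mul_nonneg (norm_nonneg _) hp.le) h1
  rw [norm_mul]
  have h2 : ‖tc f α‖ ≤ M / (2 * R) ^ (∑ i, α i) := by
    rw [le_div_iff₀ hp]
    exact h1
  calc ‖a α‖ * ‖tc f α‖ ≤ (C * R ^ (∑ i, α i)) * (M / (2 * R) ^ (∑ i, α i)) :=
        mul_le_mul (ha α) h2 (norm_nonneg _) (by positivity)
    _ = C * M * (1 / 2) ^ (∑ i, α i) := by
        rw [mul_pow, one_div, inv_pow]
        field_simp

theorem T_summable {a : (Fin n → ℕ) → ℂ} {C R : ℝ} (hR : 0 < R) (hC : 0 ≤ C)
    (ha : ∀ α, ‖a α‖ ≤ C * R ^ (∑ i, α i)) {f : V n → ℂ} (hf : Entire f) :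
    Summable (fun α => a α * tc f α) := by
  obtain ⟨M, hM⟩ := (isCompact_closedBall (0 : V n) (2 * R)).exists_bound_of_continuousOn
    (Differentiable.continuous hf).continuousOn
  refine Summable.of_norm_bounded (geo.mul_left (C * M)) (term_bound hR ha hf ?_ hC)
  intro z hz
  exact hM z (by simpa using hz)

theorem isAF {a : (Fin n → ℕ) → ℂ} {C R : ℝ} (hR : 0 < R) (hC : 0 ≤ C)
    (ha : ∀ α, ‖a α‖ ≤ C * R ^ (∑ i, α i)) : IsAF (T a) := by
  refine ⟨?_, ?_, ?_⟩
  · intro f g hf hg
    have hfg : Entire (fun z => f z + g z) := Differentiable.add hf hg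
    unfold T
    rw [← (T_summable hR hC ha hf).tsum_add (T_summable hR hC ha hg)]
    refine tsum_congr fun α => ?_
    rw [tc_eq hfg (c := fun α => tc f α + tc g α) (fun z => by
      have h1 := (tc_ser hf z).add (tc_ser hg z)
      have h2 : (fun α : Fin n → ℕ => tc f α * ∏ i, z i ^ α i + tc g α * ∏ i, z i ^ α i) =
          fun α => (tc f α + tc g α) * ∏ i, z i ^ α i := by
        funext α
        ring
      rw [h2] at h1
      exact h1) α]
    ring
  · intro c f hf
    have hcf : Entire (fun z => c * f z) := Differentiable.const_mul hf c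
    unfold T
    rw [← tsum_mul_left]
    refine tsum_congr fun α => ?_
    rw [tc_eq hcf (c := fun α => c * tc f α) (fun z => by
      have h1 := (tc_ser hf z).mul_left c
      have h2 : (fun α : Fin n → ℕ => c * (tc f α * ∏ i, z i ^ α i)) =
          fun α => (c * tc f α) * ∏ i, z i ^ α i := by
        funext α
        ring
      rw [h2] at h1
      exact h1) α]
    ring
  · refine ⟨Metric.closedBall 0 (2 * R), C * ∑' α : Fin n → ℕ, (1 / 2 : ℝ) ^ (∑ i, α i),
      isCompact_closedBall _ _, ?_⟩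
    intro f M hf hM hfM
    have h1 : ‖T a f‖ ≤ ∑' α : Fin n → ℕ, C * M * (1 / 2 : ℝ) ^ (∑ i, α i) :=
      tsum_of_norm_bounded (geo.mul_left (C * M)).hasSum
        (term_bound hR ha hf (fun z hz => hfM z (by simpa using hz)) hC)
    rw [tsum_mul_left] at h1
    linarith [h1]

/-- the action of polynomials on the coefficients -/
noncomputable def L (a : (Fin n → ℕ) → ℂ) (γ : Fin n → ℕ) : MvPolynomial (Fin n) ℂ →ₗ[ℂ] ℂ :=
  (MvPolynomial.basisMonomials (Fin n) ℂ).constr ℂ (fun β => a (fun i => γ i + β i))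

theorem L_monomial (a : (Fin n → ℕ) → ℂ) (γ : Fin n → ℕ) (β : Fin n →₀ ℕ) (p : ℂ) :
    L a γ (MvPolynomial.monomial β p) = p * a (fun i => γ i + β i) := by
  have h1 : MvPolynomial.monomial β p = p • (MvPolynomial.basisMonomials (Fin n) ℂ) β := by
    rw [MvPolynomial.coe_basisMonomials, MvPolynomial.smul_monomial, smul_eq_mul, mul_one]
  rw [h1, map_smul, L, Module.Basis.constr_basis, smul_eq_mul]

theorem L_sum (a : (Fin n → ℕ) → ℂ) (γ : Fin n → ℕ) (P : MvPolynomial (Fin n) ℂ) :
    L a γ P = ∑ β ∈ P.support, P.coeff β * a (fun i => γ i + β i) := by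
  conv_lhs => rw [← MvPolynomial.support_sum_monomial_coeff P]
  rw [map_sum]
  exact Finset.sum_congr rfl fun β _ => L_monomial a γ β _

theorem eval_entire (P : MvPolynomial (Fin n) ℂ) {f : V n → ℂ} (hf : Entire f) :
    Entire (fun z => MvPolynomial.eval z P * f z) :=
  Pool.Agent.Helper25.FB.Inj.mulP_mem P ⟨f, hf⟩

theorem inj_add (β : Fin n → ℕ) : Function.Injective (fun (γ : Fin n → ℕ) i => γ i + β i) := by
  intro γ γ' h
  funext i
  have := congrFun h i
  simp only at this
  omega

theorem T_mul {a : (Fin n → ℕ) → ℂ} {C R : ℝ} (hR : 0 < R) (hC : 0 ≤ C)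
    (ha : ∀ α, ‖a α‖ ≤ C * R ^ (∑ i, α i)) {f : V n → ℂ} (hf : Entire f)
    (P : MvPolynomial (Fin n) ℂ) :
    HasSum (fun γ => L a γ P * tc f γ) (T a (fun z => MvPolynomial.eval z P * f z)) := by
  induction P using MvPolynomial.induction_on' with
  | monomial β p =>
    set g : V n → ℂ := fun z => MvPolynomial.eval z (MvPolynomial.monomial β p) * f z with hg
    have hge : Entire g := eval_entire _ hf
    classical
    set c : (Fin n → ℕ) → ℂ := fun α => if ∀ i, β i ≤ α i then p * tc f (fun i => α i - β i) else 0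
      with hc
    have hc1 : ∀ γ : Fin n → ℕ, c (fun i => γ i + β i) = p * tc f γ := by
      intro γ
      simp only [hc]
      rw [if_pos (fun i => Nat.le_add_left _ _)]
      congr 2
      funext i
      omega
    have hc2 : ∀ α : Fin n → ℕ, α ∉ Set.range (fun (γ : Fin n → ℕ) i => γ i + β i) → c α = 0 := by
      intro α hα
      simp only [hc]
      rw [if_neg]
      intro h
      exact hα ⟨fun i => α i - β i, by funext i; have := h i; simp only; omega⟩
    have hser : Ser c g := by
      intro z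
      rw [← (inj_add (fun i => β i)).hasSum_iff (fun α hα => by rw [hc2 α hα, zero_mul])]
      have h1 := (tc_ser hf z).mul_left (MvPolynomial.eval z (MvPolynomial.monomial β p))
      have h2 : (fun γ : Fin n → ℕ => MvPolynomial.eval z (MvPolynomial.monomial β p) *
          (tc f γ * ∏ i, z i ^ γ i)) =
          (fun α : Fin n → ℕ => c α * ∏ i, z i ^ α i) ∘ (fun (γ : Fin n → ℕ) i => γ i + β i) := by
        funext γ
        simp only [Function.comp_apply]
        rw [hc1, MvPolynomial.eval_monomial, Finsupp.prod_fintype _ _ (fun i => pow_zero _)]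
        simp only [pow_add, Finset.prod_mul_distrib]
        ring
      rw [h2] at h1
      exact h1
    have hT : HasSum (fun α => a α * c α) (T a g) := by
      have h1 := (T_summable hR hC ha hge).hasSum
      have h2 : (fun α => a α * tc g α) = fun α => a α * c α := by
        funext α
        rw [tc_eq hge hser]
      have h3 : T a g = ∑' α, a α * tc g α := rfl
      rw [← h3] at h1
      rwa [h2] at h1
    rw [← (inj_add (fun i => β i)).hasSum_iff (fun α hα => by rw [hc2 α hα, mul_zero])] at hT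
    convert hT using 2 with γ
    try simp only [Function.comp_apply]
    rw [hc1, L_monomial]
    ring
  | add P Q hP hQ =>
    have h1 := hP.add hQ
    have h2 := (isAF hR hC ha).add _ _ (eval_entire P hf) (eval_entire Q hf)
    have h3 : (fun z => MvPolynomial.eval z (P + Q) * f z) =
        fun z => MvPolynomial.eval z P * f z + MvPolynomial.eval z Q * f z := by
      funext z
      rw [map_add]
      ring
    rw [h3, h2]
    convert h1 using 2 with γ
    rw [map_add]
    ring

/-! ### derivatives -/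

theorem wd_eq {f : V n → ℂ} (hf : Entire f) (j : Fin n) (z : V n) :
    wd j f z = fderiv ℂ f z (Pi.single j 1) := by
  have h1 : fderiv ℝ f z = (fderiv ℂ f z).restrictScalars ℝ :=
    (Differentiable.differentiableAt hf).fderiv_restrictScalars ℝ
  unfold wd
  rw [h1]
  have h2 : (Pi.single j Complex.I : V n) = Complex.I • Pi.single j 1 := by
    rw [← Pi.single_smul, smul_eq_mul, mul_one]
  simp only [ContinuousLinearMap.coe_restrictScalars']
  rw [h2, map_smul, smul_eq_mul, ← mul_assoc, Complex.I_mul_I]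
  ring

theorem wd_ser {f : V n → ℂ} (hf : Entire f) {d : (Fin n → ℕ) → ℂ} (hd : Ser d f) (j : Fin n)
    (z : V n) :
    HasSum (fun γ : Fin n → ℕ => ((γ j + 1 : ℕ) : ℂ) * d (fun i => γ i + (if i = j then 1 else 0)) *
      ∏ i, z i ^ γ i) (wd j f z) := by
  classical
  set R : ℝ := ‖z‖ + 1 with hR
  have hR1 : 1 ≤ R := by have := norm_nonneg z; linarith
  have hR0 : 0 < R := by linarith
  obtain ⟨M, hM⟩ := (isCompact_closedBall (0 : V n) (4 * R)).exists_bound_of_continuousOn
    (Differentiable.continuous hf).continuousOn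
  have hdb : ∀ α, ‖d α‖ * (4 * R) ^ (∑ i, α i) ≤ M := by
    intro α
    rw [← tc_eq hf hd]
    exact tc_bound hf (4 * R) M (by positivity) (fun w hw => hM w (by simpa using hw)) α
  have hM0 : 0 ≤ M := le_trans (by positivity) (hdb 0)
  set g : (Fin n → ℕ) → ℂ → ℂ := fun α s =>
    d α * ((z j + s) ^ α j * ∏ i ∈ Finset.univ.erase j, z i ^ α i) with hg
  set g' : (Fin n → ℕ) → ℂ → ℂ := fun α s =>
    d α * (((α j : ℕ) : ℂ) * (z j + s) ^ (α j - 1) * ∏ i ∈ Finset.univ.erase j, z i ^ α i) with hg'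
  have hsum : ∀ s : ℂ, HasSum (fun α => g α s) (f (z + Pi.single j s)) := by
    intro s
    have h1 := hd (z + Pi.single j s)
    convert h1 using 2 with α
    simp only [hg]
    congr 1
    rw [← Finset.mul_prod_erase Finset.univ _ (Finset.mem_univ j)]
    congr 1
    · simp
    · refine Finset.prod_congr rfl fun i hi => ?_
      rw [Pi.add_apply, Pi.single_eq_of_ne (Finset.ne_of_mem_erase hi), add_zero]
  have hder : ∀ α s, HasDerivAt (g α) (g' α s) s := by
    intro α s
    have h1 : HasDerivAt (fun s : ℂ => (z j + s) ^ α j) ((α j : ℂ) * (z j + s) ^ (α j - 1)) s := by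
      have := ((hasDerivAt_id s).const_add (z j)).fun_pow (α j)
      simpa using this
    exact (h1.mul_const _).const_mul _
  have hbd : ∀ α s, s ∈ Metric.ball (0 : ℂ) 1 → ‖g' α s‖ ≤ M * (1 / 2) ^ (∑ i, α i) := by
    intro α s hs
    have hs' : ‖s‖ < 1 := by simpa using hs
    have h1 : ‖z j + s‖ ≤ R := by
      refine (norm_add_le _ _).trans ?_
      have := norm_le_pi_norm z j
      linarith
    have h2 : ‖(z j + s) ^ (α j - 1)‖ ≤ R ^ α j := by
      rw [norm_pow]
      exact (pow_le_pow_left₀ (norm_nonneg _) h1 _).trans (pow_le_pow_right₀ hR1 (Nat.sub_le _ _))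
    have h3 : ‖∏ i ∈ Finset.univ.erase j, z i ^ α i‖ ≤ ∏ i ∈ Finset.univ.erase j, R ^ α i := by
      rw [norm_prod]
      refine Finset.prod_le_prod (fun i _ => norm_nonneg _) fun i _ => ?_
      rw [norm_pow]
      refine pow_le_pow_left₀ (norm_nonneg _) ?_ _
      have := norm_le_pi_norm z i
      linarith
    have h4 : R ^ α j * ∏ i ∈ Finset.univ.erase j, R ^ α i = R ^ (∑ i, α i) := by
      rw [Finset.mul_prod_erase Finset.univ (fun i => R ^ α i) (Finset.mem_univ j),
        Finset.prod_pow_eq_pow_sum]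
    have h5 : ((α j : ℕ) : ℝ) ≤ 2 ^ (∑ i, α i) := by
      have h6 : α j ≤ ∑ i, α i := Finset.single_le_sum (fun i _ => Nat.zero_le _)
        (Finset.mem_univ j)
      have h7 : ∑ i, α i < 2 ^ (∑ i, α i) := Nat.lt_two_pow_self
      exact_mod_cast (h6.trans h7.le)
    have h6 : ‖d α‖ ≤ M / (4 * R) ^ (∑ i, α i) := by
      rw [le_div_iff₀ (by positivity)]
      exact hdb α
    simp only [hg']
    rw [norm_mul, norm_mul, norm_mul, Complex.norm_natCast]
    calc ‖d α‖ * (((α j : ℕ) : ℝ) * ‖(z j + s) ^ (α j - 1)‖ *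
          ‖∏ i ∈ Finset.univ.erase j, z i ^ α i‖)
        ≤ (M / (4 * R) ^ (∑ i, α i)) * (2 ^ (∑ i, α i) * R ^ α j *
          ∏ i ∈ Finset.univ.erase j, R ^ α i) := by
          refine mul_le_mul h6 (mul_le_mul (mul_le_mul h5 h2 (norm_nonneg _) (by positivity)) h3
            (norm_nonneg _) (by positivity)) (by positivity) (by positivity)
      _ = M * (1 / 2) ^ (∑ i, α i) := by
          rw [mul_assoc, h4]
          have h8 : (4 * R) ^ (∑ i, α i) = 2 ^ (∑ i, α i) * 2 ^ (∑ i, α i) * R ^ (∑ i, α i) := by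
            rw [← mul_pow, ← mul_pow]
            norm_num
          rw [h8, one_div, inv_pow]
          field_simp
  have hD : HasDerivAt (fun s => ∑' α, g α s) (∑' α, g' α 0) 0 :=
    hasDerivAt_tsum_of_isPreconnected (geo.mul_left M) Metric.isOpen_ball
      (convex_ball (0 : ℂ) 1).isPreconnected (fun α s _ => hder α s) hbd
      (Metric.mem_ball_self one_pos) (hsum 0).summable (Metric.mem_ball_self one_pos)
  have hE : (fun s => ∑' α, g α s) = fun s => f (z + Pi.single j s) := by
    funext s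
    exact (hsum s).tsum_eq
  rw [hE] at hD
  have hD2 : HasDerivAt (fun s : ℂ => f (z + Pi.single j s)) (fderiv ℂ f z (Pi.single j 1)) 0 := by
    have h1 : HasFDerivAt f (fderiv ℂ f z) (z + Pi.single j (0 : ℂ)) := by
      rw [Pi.single_zero, add_zero]
      exact (Differentiable.differentiableAt hf).hasFDerivAt
    have h2 : HasDerivAt (fun s : ℂ => z + Pi.single j s) (Pi.single j (1 : ℂ)) 0 := by
      refine HasDerivAt.const_add z ?_
      rw [hasDerivAt_pi]
      intro i
      by_cases hi : i = j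
      · subst hi
        simp only [Pi.single_eq_same]
        exact hasDerivAt_id' (0 : ℂ)
      · simp only [Pi.single_eq_of_ne hi]
        exact hasDerivAt_const _ _
    exact h1.comp_hasDerivAt (0 : ℂ) h2
  have hval : wd j f z = ∑' α, g' α 0 := by
    rw [wd_eq hf]
    exact hD2.unique hD
  have hS : HasSum (fun α => g' α 0) (wd j f z) := by
    rw [hval]
    exact (Summable.of_norm_bounded (geo.mul_left M) fun α =>
      hbd α 0 (Metric.mem_ball_self one_pos)).hasSum
  rw [← (inj_add (fun i => if i = j then 1 else 0)).hasSum_iff (fun α hα => by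
    have h0 : α j = 0 := by
      by_contra hne
      refine hα ⟨fun i => α i - (if i = j then 1 else 0), ?_⟩
      funext i
      by_cases hi : i = j
      · subst hi
        simp only [if_true]
        omega
      · simp [hi]
    simp only [hg', h0]
    simp)] at hS
  convert hS using 2 with γ
  simp only [Function.comp_apply, hg', if_true, add_zero]
  rw [← Finset.mul_prod_erase Finset.univ (fun i => z i ^ γ i) (Finset.mem_univ j)]
  have h9 : ∏ i ∈ Finset.univ.erase j, z i ^ (γ i + if i = j then 1 else 0) =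
      ∏ i ∈ Finset.univ.erase j, z i ^ γ i := by
    refine Finset.prod_congr rfl fun i hi => ?_
    rw [if_neg (Finset.ne_of_mem_erase hi), add_zero]
  rw [h9, Nat.add_sub_cancel]
  ring

theorem wl_single (j : Fin n) : wl (Finsupp.single j 1) = [j] := by
  unfold wl
  rw [Finsupp.toMultiset_single, one_smul, Multiset.toList_singleton]

theorem PD_X (j : Fin n) (G : V n → ℂ) : PD (MvPolynomial.X j) G = wd j G := by
  funext z
  unfold PD
  rw [MvPolynomial.support_X, Finset.sum_singleton, MvPolynomial.coeff_X, if_pos rfl, one_mul,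
    wl_single]
  rfl

theorem fac_prod (γ : Fin n → ℕ) (j : Fin n) :
    ∏ i, ((γ i + (if i = j then 1 else 0)).factorial : ℂ) =
      ((γ j + 1 : ℕ) : ℂ) * ∏ i, ((γ i).factorial : ℂ) := by
  rw [← Finset.mul_prod_erase Finset.univ (fun i => ((γ i).factorial : ℂ)) (Finset.mem_univ j),
    ← Finset.mul_prod_erase Finset.univ
      (fun i => ((γ i + (if i = j then 1 else 0)).factorial : ℂ)) (Finset.mem_univ j)]
  have h : ∏ i ∈ Finset.univ.erase j, ((γ i + (if i = j then 1 else 0)).factorial : ℂ) =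
      ∏ i ∈ Finset.univ.erase j, ((γ i).factorial : ℂ) :=
    Finset.prod_congr rfl fun i hi => by rw [if_neg (Finset.ne_of_mem_erase hi), add_zero]
  rw [h]
  simp only [if_true, Nat.factorial_succ]
  push_cast
  ring

theorem dl_ser (hEXT : S_EXT) (a : (Fin n → ℕ) → ℂ) {F : V n → ℂ} (hF : ExpType F)
    (hs : Ser (fun γ => a γ / ∏ i, ((γ i).factorial : ℂ)) F) (l : List (Fin n)) :
    ExpType (dl l F) ∧
      Ser (fun γ => a (fun i => γ i + l.count i) / ∏ i, ((γ i).factorial : ℂ)) (dl l F) := by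
  induction l with
  | nil =>
    refine ⟨hF, ?_⟩
    simpa [dl] using hs
  | cons j l ih =>
    have hd : dl (j :: l) F = wd j (dl l F) := rfl
    rw [hd]
    refine ⟨?_, ?_⟩
    · have := ((hEXT n).1 (dl l F) (MvPolynomial.X j) ih.1).2
      rwa [PD_X] at this
    · intro z
      have h1 := wd_ser ih.1.1 ih.2 j z
      have h2 : (fun γ : Fin n → ℕ => ((γ j + 1 : ℕ) : ℂ) *
          (a (fun i => (γ i + (if i = j then 1 else 0)) + l.count i) /
            ∏ i, ((γ i + (if i = j then 1 else 0)).factorial : ℂ)) * ∏ i, z i ^ γ i) =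
          fun γ => a (fun i => γ i + (j :: l).count i) / (∏ i, ((γ i).factorial : ℂ)) *
            ∏ i, z i ^ γ i := by
        funext γ
        have h3 : (fun i => (γ i + (if i = j then 1 else 0)) + l.count i) =
            fun i => γ i + (j :: l).count i := by
          funext i
          rw [List.count_cons]
          by_cases hi : i = j
          · subst hi
            simp
            omega
          · have hi' : ¬ (j = i) := fun h => hi h.symm
            simp [hi, hi']
        rw [h3, fac_prod]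
        have h4 : ((γ j + 1 : ℕ) : ℂ) ≠ 0 := Nat.cast_ne_zero.2 (Nat.succ_ne_zero _)
        have h5 : ∏ i, ((γ i).factorial : ℂ) ≠ 0 :=
          Finset.prod_ne_zero_iff.2 fun i _ => Nat.cast_ne_zero.2 (Nat.factorial_ne_zero _)
        field_simp
      rw [← h2]
      exact h1

theorem count_wl (β : Fin n →₀ ℕ) (i : Fin n) : (wl β).count i = β i := by
  unfold wl
  rw [← Multiset.coe_count, Multiset.coe_toList, Finsupp.count_toMultiset]

theorem main (hEXT : S_EXT) : S_FBS := by
  intro n P F hF h0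
  set a : (Fin n → ℕ) → ℂ := fun α => (∏ i, ((α i).factorial : ℂ)) * tc F α with ha
  have hfac : ∀ γ : Fin n → ℕ, ∏ i, ((γ i).factorial : ℂ) ≠ 0 := fun γ =>
    Finset.prod_ne_zero_iff.2 fun i _ => Nat.cast_ne_zero.2 (Nat.factorial_ne_zero _)
  have hser : Ser (fun γ => a γ / ∏ i, ((γ i).factorial : ℂ)) F := by
    have h1 : (fun γ => a γ / ∏ i, ((γ i).factorial : ℂ)) = tc F := by
      funext γ
      simp only [ha]
      rw [mul_div_cancel_left₀ _ (hfac γ)]
    rw [h1]
    exact tc_ser hF.1
  -- bound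
  obtain ⟨C₀, B₀, hb⟩ := hF.2
  set B : ℝ := max B₀ 1 with hB
  have hB1 : 1 ≤ B := le_max_right _ _
  have hBp : 0 < B := by linarith
  have hFb : ∀ z, ‖F z‖ ≤ |C₀| * Real.exp (B * ‖z‖) := by
    intro z
    refine (hb z).trans (mul_le_mul (le_abs_self _) (Real.exp_le_exp.2 ?_) (Real.exp_pos _).le
      (abs_nonneg _))
    exact mul_le_mul_of_nonneg_right (le_max_left _ _) (norm_nonneg _)
  have hab : ∀ α, ‖a α‖ ≤ (|C₀| * Real.exp 1) * (Real.exp 1 * B) ^ (∑ i, α i) := by
    intro α
    set N : ℕ := ∑ i, α i with hN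
    have hN1 : (0 : ℝ) < N + 1 := by positivity
    have h1 := tc_bound hF.1 ((N + 1) / B) (|C₀| * Real.exp (N + 1)) (by positivity) (by
      intro z hz
      refine (hFb z).trans (mul_le_mul_of_nonneg_left (Real.exp_le_exp.2 ?_) (abs_nonneg _))
      calc B * ‖z‖ ≤ B * ((N + 1) / B) := mul_le_mul_of_nonneg_left hz hBp.le
        _ = N + 1 := by field_simp) α
    have h2 : ‖∏ i, ((α i).factorial : ℂ)‖ ≤ (N + 1 : ℝ) ^ N := by
      rw [norm_prod]
      have h3 : ∏ i, ‖((α i).factorial : ℂ)‖ = ((∏ i, (α i).factorial : ℕ) : ℝ) := by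
        push_cast
        refine Finset.prod_congr rfl fun i _ => ?_
        rw [Complex.norm_natCast]
      rw [h3]
      have h4 : ∏ i, (α i).factorial ≤ N.factorial :=
        Nat.le_of_dvd (Nat.factorial_pos _) (Nat.prod_factorial_dvd_factorial_sum _ _)
      have h5 : N.factorial ≤ N ^ N := Nat.factorial_le_pow N
      have h6 : N ^ N ≤ (N + 1) ^ N := Nat.pow_le_pow_left (Nat.le_succ N) N
      exact_mod_cast (h4.trans h5).trans h6
    have hp : (0 : ℝ) < ((N + 1) / B) ^ N := by positivity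
    have h7 : ‖tc F α‖ ≤ |C₀| * Real.exp (N + 1) / ((N + 1) / B) ^ N := by
      rw [le_div_iff₀ hp]
      exact h1
    simp only [ha]
    rw [norm_mul]
    calc ‖∏ i, ((α i).factorial : ℂ)‖ * ‖tc F α‖
        ≤ (N + 1 : ℝ) ^ N * (|C₀| * Real.exp (N + 1) / ((N + 1) / B) ^ N) :=
          mul_le_mul h2 h7 (norm_nonneg _) (by positivity)
      _ = (|C₀| * Real.exp 1) * (Real.exp 1 * B) ^ N := by
          rw [div_pow, Real.exp_add, mul_pow, ← Real.exp_nat_mul, mul_one]
          field_simp
  have hR : 0 < Real.exp 1 * B := by positivity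
  have hC : 0 ≤ |C₀| * Real.exp 1 := by positivity
  -- the relations
  have hL : ∀ γ, L a γ P = 0 := by
    have h1 : Ser (fun γ => L a γ P / ∏ i, ((γ i).factorial : ℂ)) (fun _ => (0 : ℂ)) := by
      intro z
      have h2 : HasSum (fun γ : Fin n → ℕ => ∑ β ∈ P.support, P.coeff β *
          (a (fun i => γ i + (wl β).count i) / (∏ i, ((γ i).factorial : ℂ)) * ∏ i, z i ^ γ i))
          (∑ β ∈ P.support, P.coeff β * dl (wl β) F z) :=
        hasSum_sum fun β _ => ((dl_ser hEXT a hF hser (wl β)).2 z).mul_left _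
      have h3 : ∑ β ∈ P.support, P.coeff β * dl (wl β) F z = 0 := h0 z
      rw [h3] at h2
      have h4 : (fun γ : Fin n → ℕ => ∑ β ∈ P.support, P.coeff β *
          (a (fun i => γ i + (wl β).count i) / (∏ i, ((γ i).factorial : ℂ)) * ∏ i, z i ^ γ i)) =
          fun γ => L a γ P / (∏ i, ((γ i).factorial : ℂ)) * ∏ i, z i ^ γ i := by
        funext γ
        rw [L_sum, Finset.sum_div, Finset.sum_mul]
        refine Finset.sum_congr rfl fun β _ => ?_
        simp only [count_wl]
        ring
      rw [h4] at h2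
      exact h2
    have h5 : Ser (fun _ : Fin n → ℕ => (0 : ℂ)) (fun _ : V n => (0 : ℂ)) := by
      intro z
      simp
    intro γ
    have h6 : L a γ P / ∏ i, ((γ i).factorial : ℂ) = 0 := h1.unique h5 γ
    rcases div_eq_zero_iff.1 h6 with h | h
    · exact h
    · exact absurd h (hfac γ)
  refine ⟨T a, ⟨isAF hR hC hab, ?_⟩, ?_⟩
  · intro f hf
    have h1 := T_mul hR hC hab hf P
    simp only [hL, zero_mul] at h1
    exact h1.unique hasSum_zero
  · intro z
    have he : Entire (fun ζ : V n => Complex.exp (∑ j, ζ j * z j)) :=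
      Pool.Agent.Helper25.FB.Inj.expo_mem z
    have h1 : ∀ α, tc (fun ζ : V n => Complex.exp (∑ j, ζ j * z j)) α =
        ∏ i, z i ^ α i / ((α i).factorial : ℂ) :=
      tc_eq he (fun ζ => Pool.Agent.Helper25.FB.Inj.expo_hasSum z ζ)
    have h2 : FBorel (T a) z = ∑' α, a α * tc (fun ζ : V n => Complex.exp (∑ j, ζ j * z j)) α := rfl
    rw [h2, ← (tc_ser hF.1 z).tsum_eq]
    refine tsum_congr fun α => ?_
    rw [h1, Finset.prod_div_distrib]
    simp only [ha]
    have := hfac α
    field_simp

end Pool.Agent.Helper7.FN.FBS
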